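import Mathlib

namespace Pool.Agent.Results.MP_90f83a_nt.NonIntegral

open Finset

/-- `c` is the sequence of Schmidt-type coefficients `c_k^{(r,s)}`: for every `n ≥ 0`,
`∑_k (C(n,k) C(n+k,k))^r = ∑_k (C(n,k) C(n+k,k))^s c_k`. -/
def IsSchmidt (r s : ℕ) (c : ℕ → ℚ) : Prop :=
  ∀ n : ℕ, ∑ k ∈ range (n + 1), ((n.choose k : ℚ)) ^ r * ((n + k).choose k : ℚ) ^ r
    = ∑ k ∈ range (n + 1), ((n.choose k : ℚ)) ^ s * ((n + k).choose k : ℚ) ^ s * c k

/-- The recursively defined solution of the triangular system. -/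
noncomputable def coef (r s : ℕ) : ℕ → ℚ
  | n => ((∑ k ∈ range (n + 1), ((n.choose k : ℚ)) ^ r * ((n + k).choose k : ℚ) ^ r)
      - ∑ k : Fin n, ((n.choose k : ℚ)) ^ s * ((n + k).choose k : ℚ) ^ s * coef r s k)
      / (((n + n).choose n : ℚ) ^ s)
decreasing_by exact k.2

lemma coef_isSchmidt (r s : ℕ) : IsSchmidt r s (coef r s) := by
  intro n
  rw [Finset.sum_range_succ (fun k => ((n.choose k : ℚ)) ^ s * ((n + k).choose k : ℚ) ^ s
    * coef r s k)]
  have hne : (((n + n).choose n : ℕ) : ℚ) ^ s ≠ 0 := by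
    have : 0 < (n + n).choose n := Nat.choose_pos (by omega)
    positivity
  rw [coef.eq_1 r s n, Nat.choose_self, Nat.cast_one, one_pow, one_mul,
    mul_div_cancel₀ _ hne, ← Fin.sum_univ_eq_sum_range
      (fun k => ((n.choose k : ℚ)) ^ s * ((n + k).choose k : ℚ) ^ s * coef r s k)]
  ring

lemma unique {r s : ℕ} {c d : ℕ → ℚ} (hc : IsSchmidt r s c) (hd : IsSchmidt r s d) : c = d := by
  funext n
  induction n using Nat.strong_induction_on with
  | _ n ih =>
    have h := (hc n).symm.trans (hd n)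
    rw [Finset.sum_range_succ, Finset.sum_range_succ] at h
    have h2 : ∑ k ∈ range n, ((n.choose k : ℚ)) ^ s * ((n + k).choose k : ℚ) ^ s * c k
        = ∑ k ∈ range n, ((n.choose k : ℚ)) ^ s * ((n + k).choose k : ℚ) ^ s * d k := by
      refine Finset.sum_congr rfl fun k hk => ?_
      rw [ih k (Finset.mem_range.mp hk)]
    rw [h2] at h
    have hne : (((n + n).choose n : ℕ) : ℚ) ^ s ≠ 0 := by
      have : 0 < (n + n).choose n := Nat.choose_pos (by omega)
      positivity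
    have h3 := add_left_cancel h
    rw [Nat.choose_self, Nat.cast_one, one_pow, one_mul] at h3
    exact mul_left_cancel₀ hne h3

/-- If all coefficients are integers then every prime `p ≥ 5` divides `r - s`. -/
lemma dvd_of_integral {r s : ℕ} (hs : 1 < s) (hr : s < r) {z : ℕ → ℤ}
    (hz : IsSchmidt r s (fun n => (z n : ℚ))) {p : ℕ} (hp : p.Prime) (h5 : 5 ≤ p) :
    p ∣ r - s := by
  obtain ⟨t, rfl⟩ : ∃ t, r = s + t := ⟨r - s, by omega⟩
  -- integer version of the identity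
  have hint : ∀ n : ℕ, ∑ k ∈ range (n + 1), ((n.choose k : ℤ)) ^ (s + t) * ((n + k).choose k : ℤ) ^ (s + t)
      = ∑ k ∈ range (n + 1), ((n.choose k : ℤ)) ^ s * ((n + k).choose k : ℤ) ^ s * z k := by
    intro n
    have := hz n
    simp only at this
    exact_mod_cast this
  have h0 : z 0 = 1 := by
    have := hint 0
    simpa using this.symm
  have h1 : z 1 = 2 ^ t := by
    have := hint 1
    simp only [Finset.sum_range_succ, Finset.sum_range_zero] at this
    simp [h0, pow_add] at this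
    exact this.symm
  obtain ⟨q, rfl⟩ : ∃ q, p = q + 2 := ⟨p - 2, by omega⟩
  -- the identity at `n = p - 2 = q`, modulo `p²`
  have hq := hint q
  have hdvd : ∀ k ∈ range (q + 1), 2 ≤ k → ((q + 2 : ℕ) : ℤ) ∣ ((q + k).choose k : ℤ) := by
    intro k hk hk2
    have hk' := Finset.mem_range.mp hk
    have := Nat.Prime.dvd_choose hp (a := k) (b := q + k) (by omega) (by omega) (by omega)
    exact_mod_cast this
  obtain ⟨q', rfl⟩ : ∃ q', q = q' + 1 := ⟨q - 1, by omega⟩
  rw [Finset.sum_range_succ', Finset.sum_range_succ', Finset.sum_range_succ',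
    Finset.sum_range_succ'] at hq
  set P : ℤ := ((q' + 1 + 2 : ℕ) : ℤ) with hP
  have hA : P ^ 2 ∣ ∑ k ∈ range q', (((q' + 1).choose (k + 1 + 1) : ℤ)) ^ (s + t)
      * ((q' + 1 + (k + 1 + 1)).choose (k + 1 + 1) : ℤ) ^ (s + t) := by
    refine Finset.dvd_sum fun k hk => Dvd.dvd.mul_left ?_ _
    have h := hdvd (k + 1 + 1) (Finset.mem_range.mpr (by have := Finset.mem_range.mp hk; omega))
      (by omega)
    exact (pow_dvd_pow_of_dvd h 2).trans (pow_dvd_pow _ (by omega))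
  have hB : P ^ 2 ∣ ∑ k ∈ range q', (((q' + 1).choose (k + 1 + 1) : ℤ)) ^ s
      * ((q' + 1 + (k + 1 + 1)).choose (k + 1 + 1) : ℤ) ^ s * z (k + 1 + 1) := by
    refine Finset.dvd_sum fun k hk => Dvd.dvd.mul_right (Dvd.dvd.mul_left ?_ _) _
    have h := hdvd (k + 1 + 1) (Finset.mem_range.mpr (by have := Finset.mem_range.mp hk; omega))
      (by omega)
    exact (pow_dvd_pow_of_dvd h 2).trans (pow_dvd_pow _ (by omega))
  obtain ⟨A, hA⟩ := hA
  obtain ⟨B, hB⟩ := hB
  rw [hA, hB] at hq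
  simp only [zero_add, Nat.choose_one_right, Nat.choose_zero_right, Nat.cast_one, one_pow,
    one_mul, h0, h1, add_zero, mul_one] at hq
  -- `T = n (n+1)` with `n = p - 2`
  have hT : ((q' + 1 : ℕ) : ℤ) * ((q' + 1 + 1 : ℕ) : ℤ) = P ^ 2 - 3 * P + 2 := by
    rw [hP]; push_cast; ring
  have hq2 : (P ^ 2 - 3 * P + 2) ^ s * ((P ^ 2 - 3 * P + 2) ^ t - 2 ^ t) = P ^ 2 * (B - A) := by
    rw [← mul_pow, ← mul_pow, hT, pow_add] at hq
    linear_combination hq
  have hpZ : Prime P := by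
    rw [hP]; exact Nat.prime_iff_prime_int.mp hp
  have hP5 : 5 ≤ P := by rw [hP]; exact_mod_cast h5
  have hn2 : ¬ P ∣ 2 := by
    intro h
    have := Int.le_of_dvd (by norm_num) h
    linarith
  have hn3 : ¬ P ∣ 3 := by
    intro h
    have := Int.le_of_dvd (by norm_num) h
    linarith
  have hcop : IsCoprime (P ^ 2) ((P ^ 2 - 3 * P + 2) ^ s) := by
    refine IsCoprime.pow ?_
    rw [hpZ.irreducible.coprime_iff_not_dvd]
    intro h
    apply hn2
    have h' : P ∣ (P ^ 2 - 3 * P + 2) - P * (P - 3) := dvd_sub h (dvd_mul_right _ _)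
    rwa [show (P ^ 2 - 3 * P + 2) - P * (P - 3) = 2 by ring] at h'
  have hdvd2 : P ^ 2 ∣ (P ^ 2 - 3 * P + 2) ^ t - 2 ^ t := by
    refine hcop.dvd_of_dvd_mul_left ?_
    exact ⟨B - A, by rw [← hq2]⟩
  obtain ⟨K, hK⟩ := Polynomial.powAddExpansion (2 : ℤ) (P ^ 2 - 3 * P) t
  rw [show (2 : ℤ) + (P ^ 2 - 3 * P) = P ^ 2 - 3 * P + 2 by ring] at hK
  rw [hK] at hdvd2
  have h6 : P ^ 2 ∣ P * (3 * (t : ℤ) * 2 ^ (t - 1)) := by
    obtain ⟨E, hE⟩ := hdvd2
    refine ⟨(t : ℤ) * 2 ^ (t - 1) + K * (P - 3) ^ 2 - E, ?_⟩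
    linear_combination (-1 : ℤ) * hE
  have h7 : P ∣ 3 * (t : ℤ) * 2 ^ (t - 1) := by
    rw [pow_two] at h6
    exact (mul_dvd_mul_iff_left hpZ.ne_zero).mp h6
  have h8 : P ∣ (t : ℤ) := by
    rcases hpZ.dvd_or_dvd h7 with h | h
    · rcases hpZ.dvd_or_dvd h with h | h
      · exact absurd h hn3
      · exact h
    · exact absurd (hpZ.dvd_of_dvd_pow h) hn2
  have h9 : (q' + 1 + 2) ∣ t := by
    rw [hP] at h8
    exact_mod_cast h8
  simpa using h9

/-- **MP_90f83a_nt, Q1 (answer: yes).** For all integers `r > s > 1` the (unique) sequence of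
Schmidt-type coefficients `c_n^{(r,s)}` has a non-integral term with `n ≥ 1`. -/
theorem result (r s : ℕ) (hs : 1 < s) (hr : s < r) :
    ∃ c : ℕ → ℚ, IsSchmidt r s c ∧ (∀ d, IsSchmidt r s d → d = c) ∧
      ∃ n : ℕ, 1 ≤ n ∧ ∀ z : ℤ, c n ≠ z := by
  refine ⟨coef r s, coef_isSchmidt r s, fun d hd => unique hd (coef_isSchmidt r s), ?_⟩
  by_contra hcon
  push Not at hcon
  have h0 : ∃ z : ℤ, coef r s 0 = z := by
    refine ⟨1, ?_⟩
    have := coef_isSchmidt r s 0
    simpa using this.symm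
  have hall : ∀ n : ℕ, ∃ z : ℤ, coef r s n = z := by
    intro n
    rcases Nat.eq_zero_or_pos n with rfl | hn
    · exact h0
    · exact hcon n hn
  choose z hz using hall
  have hz' : IsSchmidt r s (fun n => (z n : ℚ)) := by
    have : (fun n => (z n : ℚ)) = coef r s := by
      funext n; exact (hz n).symm
    rw [this]
    exact coef_isSchmidt r s
  obtain ⟨p, hp1, hp⟩ := Nat.exists_infinite_primes (r + 5)
  have hd := dvd_of_integral hs hr hz' hp (by omega)
  have := Nat.le_of_dvd (by omega) hd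
  omega

end Pool.Agent.Results.MP_90f83a_nt.NonIntegral
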